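import Pool.Agent.W199.PX.MassAux
import Pool.Agent.H394R3.ET.Mach2

set_option autoImplicit false

namespace Pool.Agent.W199.PX

theorem task : Pool.Agent.W406.PX.TaskMass := task' Pool.Agent.H394R3.ET.taskMach

end Pool.Agent.W199.PX
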