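import Pool.Agent.W406.PX.Stmts
import Pool.Agent.H394R3.ET.Stmts

set_option autoImplicit false

open Finset

namespace Pool.Agent.W199.PX

open Pool.Agent.H96R3.BC (CC)
open Pool.Agent.H394R3.ET (KC Mass TaskMach)
open Pool.Agent.W406.PX (Hs hm TaskMass)

theorem pow_diff (x : ℝ) (hx : 0 ≤ x) (k : ℕ) :
    (x + 1) ^ (k + 1) ≤ x ^ (k + 1) + (k + 1) * (x + 1) ^ k := by
  induction k with
  | zero => simp
  | succ k ih =>
    have h1 : x * (x + 1) ^ (k + 1) ≤ x * (x ^ (k + 1) + (k + 1) * (x + 1) ^ k) :=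
      mul_le_mul_of_nonneg_left ih hx
    have h2 : 0 ≤ ((k : ℝ) + 1) * (x + 1) ^ k := by positivity
    push_cast
    rw [pow_succ (x + 1) (k + 1)]
    have h3 : x ^ (k + 1 + 1) = x * x ^ (k + 1) := by ring
    have h4 : (x + 1) ^ (k + 1) = (x + 1) * (x + 1) ^ k := by ring
    rw [h3]
    nlinarith [h1, h2, h4]

theorem card_CC (q j : ℕ) (hq : 1 ≤ q) :
    ((CC q j).card : ℝ) ≤ 2 * q * ((j : ℝ) + 1) ^ (2 * q - 1) := by
  unfold CC
  rw [Nat.card_Ioc, Nat.cast_sub (Nat.pow_le_pow_left (Nat.le_succ j) _)]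
  obtain ⟨k, hk⟩ : ∃ k, 2 * q = k + 1 := ⟨2 * q - 1, by omega⟩
  have h := pow_diff (j : ℝ) (Nat.cast_nonneg j) k
  have hk' : (2 : ℝ) * q = k + 1 := by exact_mod_cast hk
  rw [hk', hk]
  push_cast
  linarith

theorem hm_nonneg (X n : ℕ) : 0 ≤ hm X n := by
  unfold hm
  split_ifs
  · exact Finset.prod_nonneg fun p _ => by positivity
  · exact le_rfl

theorem cell_sum {q j₁ : ℕ} {s : ℝ} (hM : Mass q j₁ s) {j : ℕ} (hj : j₁ ≤ j) :
    ∑ n ∈ CC q j, hm (j₁ ^ (2 * q)) n ≤ s * (CC q j).card / (Real.log j) ^ 3 := by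
  classical
  set T := (KC q j).filter (fun n => Squarefree n ∧ ∀ p ∈ n.primeFactors, j₁ ^ (2 * q) < p) with hT
  have h := hM j hj T (Finset.filter_subset _ _) (fun n hn => (Finset.mem_filter.1 hn).2)
  refine le_trans (le_of_eq ?_) h
  rw [hT]
  unfold KC
  rw [Finset.filter_filter, Finset.sum_filter]
  rfl

theorem task' (h : TaskMach) : TaskMass := by
  obtain ⟨Q₀, hQ⟩ := h
  refine ⟨max Q₀ 1, fun q hq s' hs' => ?_⟩
  have hq1 : 1 ≤ q := le_trans (le_max_right _ _) hq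
  obtain ⟨C, -, hC⟩ := hQ q (le_trans (le_max_left _ _) hq)
  have hq0 : (0 : ℝ) < q := by exact_mod_cast hq1
  set D : ℝ := 3 * (2 * q * 2 ^ (2 * q - 1)) with hD
  have hD0 : 0 < D := by positivity
  obtain ⟨J₀, hJ⟩ := hC (s' / D) (by positivity)
  refine ⟨max J₀ 3, fun j₁ hj₁ j hj A B hA hB => ?_⟩
  have hMs := (hJ j₁ (le_trans (le_max_left _ _) hj₁)).1
  have h3 : 3 ≤ j := le_trans (le_trans (le_max_right _ _) hj₁) hj
  have hj0 : (3 : ℝ) ≤ j := by exact_mod_cast h3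
  have hlog : 0 < Real.log j := Real.log_pos (by linarith)
  have hcell : ∀ l : ℕ, l ≤ 2 → ∑ n ∈ CC q (j + l), hm (j₁ ^ (2 * q)) n ≤
      s' / 3 * (j : ℝ) ^ (2 * q - 1) / (Real.log j) ^ 3 := by
    intro l hl
    refine (cell_sum hMs (le_trans hj (Nat.le_add_right j l))).trans ?_
    have hc := card_CC q (j + l) hq1
    have hl2 : (l : ℝ) ≤ 2 := by exact_mod_cast hl
    have hle : ((j + l : ℕ) : ℝ) + 1 ≤ 2 * j := by push_cast; linarith
    have hc2 : ((CC q (j + l)).card : ℝ) ≤ 2 * q * (2 * (j : ℝ)) ^ (2 * q - 1) := by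
      refine hc.trans (mul_le_mul_of_nonneg_left (pow_le_pow_left₀ (by positivity) hle _) ?_)
      positivity
    have hlog2 : Real.log j ≤ Real.log ((j + l : ℕ) : ℝ) :=
      Real.log_le_log (by linarith) (by push_cast; linarith [Nat.cast_nonneg (α := ℝ) l])
    have hlog3 : (Real.log j) ^ 3 ≤ (Real.log ((j + l : ℕ) : ℝ)) ^ 3 :=
      pow_le_pow_left₀ hlog.le hlog2 3
    have hnum : s' / D * ((CC q (j + l)).card : ℝ) ≤ s' / 3 * (j : ℝ) ^ (2 * q - 1) := by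
      refine (mul_le_mul_of_nonneg_left hc2 (by positivity)).trans (le_of_eq ?_)
      rw [hD, mul_pow]
      have h2 : (2 : ℝ) ^ (2 * q - 1) ≠ 0 := by positivity
      field_simp
    exact div_le_div₀ (by positivity) hnum (by positivity) hlog3
  have hsub : Ioc A B ⊆ (CC q j ∪ CC q (j + 1)) ∪ CC q (j + 2) := by
    intro n hn
    rw [Finset.mem_Ioc] at hn
    simp only [CC, Finset.mem_union, Finset.mem_Ioc]
    have e1 : j + 2 + 1 = j + 3 := rfl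
    rw [e1, show j + 1 + 1 = j + 2 from rfl]
    by_cases h1 : n ≤ (j + 1) ^ (2 * q)
    · left; left; exact ⟨lt_of_le_of_lt hA hn.1, h1⟩
    · by_cases h2 : n ≤ (j + 2) ^ (2 * q)
      · left; right; exact ⟨not_le.1 h1, h2⟩
      · right; exact ⟨not_le.1 h2, hn.2.trans hB⟩
  unfold Hs
  have hun : ∀ S T : Finset ℕ, ∑ n ∈ S ∪ T, hm (j₁ ^ (2 * q)) n ≤
      ∑ n ∈ S, hm (j₁ ^ (2 * q)) n + ∑ n ∈ T, hm (j₁ ^ (2 * q)) n := by
    intro S T
    rw [← Finset.sum_union_inter]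
    exact le_add_of_nonneg_right (Finset.sum_nonneg fun n _ => hm_nonneg _ _)
  calc ∑ n ∈ Ioc A B, hm (j₁ ^ (2 * q)) n
      ≤ ∑ n ∈ (CC q j ∪ CC q (j + 1)) ∪ CC q (j + 2), hm (j₁ ^ (2 * q)) n :=
        Finset.sum_le_sum_of_subset_of_nonneg hsub fun n _ _ => hm_nonneg _ _
    _ ≤ ∑ n ∈ CC q j ∪ CC q (j + 1), hm (j₁ ^ (2 * q)) n +
        ∑ n ∈ CC q (j + 2), hm (j₁ ^ (2 * q)) n := hun _ _
    _ ≤ (∑ n ∈ CC q j, hm (j₁ ^ (2 * q)) n + ∑ n ∈ CC q (j + 1), hm (j₁ ^ (2 * q)) n) +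
        ∑ n ∈ CC q (j + 2), hm (j₁ ^ (2 * q)) n := by gcongr; exact hun _ _
    _ ≤ (s' / 3 * (j : ℝ) ^ (2 * q - 1) / (Real.log j) ^ 3 +
          s' / 3 * (j : ℝ) ^ (2 * q - 1) / (Real.log j) ^ 3) +
          s' / 3 * (j : ℝ) ^ (2 * q - 1) / (Real.log j) ^ 3 := by
        gcongr
        · exact hcell 0 (by norm_num)
        · exact hcell 1 (by norm_num)
        · exact hcell 2 (by norm_num)
    _ = s' * (j : ℝ) ^ (2 * q - 1) / (Real.log j) ^ 3 := by ring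

end Pool.Agent.W199.PX
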